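import Pool.Agent.helper83.P2.SpecV
import Pool.Agent.helper42.P2.DMS

/-! Project P2 (MP_063734_an), row VIT: iterates. -/

set_option autoImplicit false

open scoped ContDiff Topology
open MeasureTheory Filter Set Metric MvPolynomial Pool.Agent.helper37.QA Pool.Agent.P2

namespace Pool.Agent.P2V

theorem VIT_It {d : ℕ} (f : Endo 2 d) {k N : ℕ} (hk : k ≤ N) (W : E3) :
    It f (N - k) (It f k W) = It f N W := by
  have h := pmap_iter_add f.F (N - k) k W
  rw [Nat.sub_add_cancel hk] at h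
  exact h.symm

theorem VIT_hol (k : ℕ) {d : ℕ} (f : Endo 2 d) : Differentiable ℂ (It f k) := by
  refine differentiable_pi.2 fun i => ?_
  intro z
  have h1 : ∀ j, AnalyticAt ℂ (fun w : E3 => w j) z := fun j =>
    (ContinuousLinearMap.proj (R := ℂ) (φ := fun _ : Fin 3 => ℂ) j).analyticAt z
  exact (AnalyticAt.aeval_mvPolynomial h1 (iter f.F k i)).differentiableAt

/-- Row VIT -/
theorem VIT : VIT_stmt := by
  intro d f U hd hU k N hk
  have hd0 : (d : ℝ) ≠ 0 := by
    have : d ≠ 0 := by omega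
    exact_mod_cast this
  have hpow : (d : ℝ) ^ N = (d : ℝ) ^ (N - k) * (d : ℝ) ^ k := by
    rw [← pow_add, Nat.sub_add_cancel hk]
  have hIt : ∀ W : E3, It f (N - k) (It f k W) = It f N W := fun W => VIT_It f hk W
  have hsub : f.map '' closure U ⊆ U := hU.1.2.2
  have hstep : ∀ x ∈ U, f.map x ∈ U := fun x hx => hsub ⟨x, subset_closure hx, rfl⟩
  have hiter : ∀ (j : ℕ) (x : PP 2), x ∈ U → f.map^[j] x ∈ U := by
    intro j
    induction j with
    | zero => intro x hx; simpa using hx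
    | succ j ih =>
      intro x hx
      rw [Function.iterate_succ_apply']
      exact hstep _ (ih x hx)
  have hcone : ∀ (j : ℕ) (W : E3), W ∈ cone U → It f j W ∈ cone U := by
    rintro j W ⟨h, hW⟩
    refine ⟨pmap_ne (iter_nd f.nondeg j) h, ?_⟩
    have h1 := map_iter f j h
    have h2 := hiter j _ hW
    rw [h1] at h2
    exact h2
  have htau : ∀ (Z : ℂ → E3) (z : ℂ), tau f (N - k) (fun z => It f k (Z z)) z = (d : ℝ) ^ k * tau f N Z z := by
    intro Z z
    unfold tau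
    simp only [hIt]
    rw [hpow]
    have h1 : (d : ℝ) ^ (N - k) ≠ 0 := pow_ne_zero _ hd0
    have h2 : (d : ℝ) ^ k ≠ 0 := pow_ne_zero _ hd0
    field_simp
  have hmass : ∀ (Z : ℂ → E3), mass f (N - k) (fun z => It f k (Z z)) = (d : ℝ) ^ k * mass f N Z := by
    intro Z
    unfold mass
    rw [← integral_const_mul]
    refine integral_congr_ae (Eventually.of_forall fun z => ?_)
    change eta z ^ 2 * tau f (N - k) (fun z => It f k (Z z)) z = (d : ℝ) ^ k * (eta z ^ 2 * tau f N Z z)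
    rw [htau]
    ring
  refine ⟨fun W => ⟨hIt W, ?_⟩, fun W hW => hcone k W hW, fun Z hZ => ⟨⟨DMS_It f k hZ.1, fun z hz => hcone k _ (hZ.2 z hz)⟩, ?_, htau Z, hmass Z, ?_, ?_⟩⟩
  · unfold un
    rw [hIt, hpow]
    have h1 : (d : ℝ) ^ (N - k) ≠ 0 := pow_ne_zero _ hd0
    have h2 : (d : ℝ) ^ k ≠ 0 := pow_ne_zero _ hd0
    field_simp
  · intro hk1
    refine ⟨DMS_It f k hZ.1, fun z hz => ?_⟩
    obtain ⟨j, rfl⟩ : ∃ j, k = j + 1 := ⟨k - 1, by omega⟩
    obtain ⟨h, hmem⟩ := hZ.2 z hz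
    refine ⟨pmap_ne (iter_nd f.nondeg (j + 1)) h, ?_⟩
    have h1 := map_iter f (j + 1) h
    rw [Function.iterate_succ_apply'] at h1
    exact ⟨_, subset_closure (hiter j _ hmem), h1⟩
  · intro Ψ
    unfold Jf
    have hn : (∫ z, eta z ^ 2 * (Ψ (It f k (Z z)) * tau f (N - k) (fun z => It f k (Z z)) z)) =
        (d : ℝ) ^ k * ∫ z, eta z ^ 2 * (Ψ (It f k (Z z)) * tau f N Z z) := by
      rw [← integral_const_mul]
      refine integral_congr_ae (Eventually.of_forall fun z => ?_)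
      change eta z ^ 2 * (Ψ (It f k (Z z)) * tau f (N - k) (fun z => It f k (Z z)) z) =
        (d : ℝ) ^ k * (eta z ^ 2 * (Ψ (It f k (Z z)) * tau f N Z z))
      rw [htau]
      ring
    rw [hmass, hn, mul_div_mul_left _ _ (pow_ne_zero _ hd0)]
  · intro z hz
    have hZd : DifferentiableAt ℂ Z z := (hZ.1 z hz).differentiableAt (isOpen_ball.mem_nhds hz)
    have h1 := (VIT_hol k f (Z z)).hasFDerivAt.comp_hasDerivAt z hZd.hasDerivAt
    exact h1.deriv

end Pool.Agent.P2V
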