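import Pool.Agent.helper83.P2.SpecV
import Pool.Agent.helper42.P2.DMS
import Pool.Agent.helper53.P2.MAU
import Pool.Agent.helper88.P2.VIT

/-! Project P2 (MP_063734_an), row VNE: the classes are not empty. -/

set_option autoImplicit false

open scoped ContDiff Topology
open MeasureTheory Filter Set Metric MvPolynomial Pool.Agent.helper37.QA Pool.Agent.P2

namespace Pool.Agent.P2V

theorem VNE_smul {d : ℕ} (f : Endo 2 d) (N : ℕ) (c : ℂ) (W : E3) :
    It f N (c • W) = c ^ (d ^ N) • It f N W :=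
  pmap_smul (iter_hom f.hom N) c W

theorem VNE_pq (c : ℂ) (W : E3) : pq (c • W) = Complex.normSq c * pq W := by
  unfold pq
  simp only [Pi.smul_apply, smul_eq_mul, Complex.normSq_mul]
  ring

theorem VNE_un {d : ℕ} (hd : 2 ≤ d) (f : Endo 2 d) (N : ℕ) (c : ℂ) (hc : c ≠ 0) (W : E3) (hW : 0 < pq (It f N W)) :
    un f N (c • W) = un f N W + Real.log ‖c‖ := by
  have hd0 : (0 : ℝ) < (d : ℝ) ^ N := by
    have : (0 : ℝ) < d := by exact_mod_cast (by omega : 0 < d)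
    positivity
  unfold un
  have hc1 : Complex.normSq (c ^ (d ^ N)) ≠ 0 := by
    rw [Ne, Complex.normSq_eq_zero]
    exact pow_ne_zero _ hc
  have h1 : Real.log (Complex.normSq (c ^ (d ^ N))) = 2 * (d : ℝ) ^ N * Real.log ‖c‖ := by
    rw [map_pow, Complex.normSq_eq_norm_sq, ← pow_mul, Real.log_pow]
    push_cast
    ring
  rw [VNE_smul, VNE_pq, Real.log_mul hc1 hW.ne', h1]
  field_simp
  ring

theorem VNE_tau {d : ℕ} (f : Endo 2 d) (N : ℕ) (Z : ℂ → E3) (g : ℂ → ℂ) (z : ℂ)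
    (hP : ∀ i, DifferentiableAt ℂ (fun z => It f N (Z z) i) z) (hg : DifferentiableAt ℂ g z) :
    tau f N (fun z => Complex.exp (-g z) • Z z) z = tau f N Z z := by
  have hA : DifferentiableAt ℂ (fun z => Complex.exp (-g z) ^ (d ^ N)) z := (hg.neg.cexp).pow _
  have e1 : ∀ i, (fun z => It f N (Complex.exp (-g z) • Z z) i) =
      fun z => Complex.exp (-g z) ^ (d ^ N) * It f N (Z z) i := by
    intro i
    funext w
    rw [VNE_smul]
    rfl
  have e2 : ∀ i, deriv (fun z => It f N (Complex.exp (-g z) • Z z) i) z =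
      deriv (fun z => Complex.exp (-g z) ^ (d ^ N)) z * It f N (Z z) i +
        Complex.exp (-g z) ^ (d ^ N) * deriv (fun z => It f N (Z z) i) z := by
    intro i
    rw [e1]
    exact (hA.hasDerivAt.mul (hP i).hasDerivAt).deriv
  have e3 : ∀ i, It f N (Complex.exp (-g z) • Z z) i = Complex.exp (-g z) ^ (d ^ N) * It f N (Z z) i :=
    fun i => congrFun (e1 i) z
  unfold tau
  rw [e2, e2, e3, e3, VNE_smul, VNE_pq]
  set A : ℂ := Complex.exp (-g z) ^ (d ^ N) with hAd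
  have hA0 : A ≠ 0 := pow_ne_zero _ (Complex.exp_ne_zero _)
  have h2 : Complex.normSq A ≠ 0 := by
    rw [Ne, Complex.normSq_eq_zero]
    exact hA0
  have h3 : A * It f N (Z z) 1 * (deriv (fun z => Complex.exp (-g z) ^ (d ^ N)) z * It f N (Z z) 0 +
      A * deriv (fun z => It f N (Z z) 0) z) - A * It f N (Z z) 0 *
      (deriv (fun z => Complex.exp (-g z) ^ (d ^ N)) z * It f N (Z z) 1 + A * deriv (fun z => It f N (Z z) 1) z) =
      A ^ 2 * (It f N (Z z) 1 * deriv (fun z => It f N (Z z) 0) z - It f N (Z z) 0 * deriv (fun z => It f N (Z z) 1) z) := by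
    ring
  rw [h3, Complex.normSq_mul, map_pow, mul_pow]
  congr 1
  rw [show (1 / 2 : ℝ) * (Complex.normSq A ^ 2 * Complex.normSq (It f N (Z z) 1 * deriv (fun z => It f N (Z z) 0) z -
      It f N (Z z) 0 * deriv (fun z => It f N (Z z) 1) z)) = Complex.normSq A ^ 2 * (1 / 2 *
      Complex.normSq (It f N (Z z) 1 * deriv (fun z => It f N (Z z) 0) z -
      It f N (Z z) 0 * deriv (fun z => It f N (Z z) 1) z)) by ring]
  exact mul_div_mul_left _ _ (pow_ne_zero 2 h2)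

/-- Row VNE -/
theorem VNE (hUN1 : UN1_stmt) (hMSS : MSS_stmt) (hVIT : VIT_stmt) (hVN1 : VN1_stmt) (hVN2 : VN2_stmt) : VNE_stmt := by
  intro d f Us K hd hC
  obtain ⟨β, C, hβ, hC1, hN2⟩ := hVN2 d f (Us 0) hd hC.good
  obtain ⟨C', hC', hN1⟩ := hVN1 β hβ
  obtain ⟨C9, -, -, -, hpos, -⟩ := hUN1 d f (Us 0) hd hC.good
  have hC0 : 0 < C := by linarith
  refine ⟨C' * C, by positivity, ?_⟩
  intro J M
  have hsub : ∀ n, Us n ⊆ Us 0 := by
    intro n
    induction n with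
    | zero => exact subset_rfl
    | succ n ih => exact (subset_closure.trans (hC.anti n)).trans ih
  have hG : Good0 f (Us J) :=
    ⟨hC.trap J, fun Z h h0 h1 hm => hC.good.2 Z h h0 h1 (closure_mono (hsub J) hm)⟩
  obtain ⟨Z, hZ, c0, hc0, hch⟩ := hC.charged J
  have hZ0 : Dsc (Us 0) Z := ⟨hZ.1, fun z hz => DMS_cone (hsub J) (hZ.2 z hz)⟩
  obtain ⟨a, ρ, c, hρ, haρ, hc, hev⟩ := hN2 Z hZ0 ⟨c0, hc0, hch⟩
  have hd1 : (1 : ℝ) < d := by exact_mod_cast (by omega : 1 < d)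
  obtain ⟨k, hk⟩ := pow_unbounded_of_one_lt ((M : ℝ) / c) hd1
  obtain ⟨N, ⟨hcN, hsp⟩, hNk⟩ := (hev.and (eventually_ge_atTop (k + M))).exists
  have hkM : (M : ℝ) ≤ (d : ℝ) ^ k * c := by
    rw [div_lt_iff₀ hc] at hk
    exact hk.le
  have hdk : (0 : ℝ) < (d : ℝ) ^ k := by positivity
  -- the rescaled disc
  have hin : ∀ z ∈ ball (0 : ℂ) (5 / 4), a + ρ * z ∈ ball (0 : ℂ) 1 := by
    intro z hz
    rw [mem_ball_zero_iff] at hz ⊢
    have h1 : ‖a + ρ * z‖ ≤ ‖a‖ + ρ * ‖z‖ := by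
      refine (norm_add_le _ _).trans ?_
      rw [norm_mul, Complex.norm_real, Real.norm_of_nonneg hρ.le]
    nlinarith
  have hb : ball (0 : ℂ) 1 ⊆ ball (0 : ℂ) (5 / 4) := ball_subset_ball (by norm_num)
  set Z₁ : ℂ → E3 := fun z => Z (a + ρ * z) with hZ₁
  have hZ₁d : DifferentiableOn ℂ Z₁ (ball 0 (5 / 4)) := by
    have h1 : DifferentiableOn ℂ (fun z : ℂ => a + ρ * z) (ball 0 (5 / 4)) :=
      ((differentiable_const a).add ((differentiable_const (ρ : ℂ)).mul differentiable_id)).differentiableOn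
    exact hZ.1.comp h1 hin
  have hZ₁c : ∀ z ∈ ball (0 : ℂ) (5 / 4), Z₁ z ∈ cone (Us J) := fun z hz => hZ.2 _ (hin z hz)
  have hZ₁p : ∀ z ∈ ball (0 : ℂ) (5 / 4), 0 < pq (It f N (Z₁ z)) := fun z hz =>
    (hpos N _ (DMS_cone ((hsub J).trans subset_closure) (hZ₁c z hz))).1
  have hhol : ∀ i, DifferentiableOn ℂ (fun z => It f N (Z₁ z) i) (ball 0 (5 / 4)) := by
    intro i z hz
    have h1 := ((VIT_hol N f (Z₁ z)).comp z ((hZ₁d z hz).differentiableAt (isOpen_ball.mem_nhds hz)))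
    exact ((differentiableAt_pi.1 h1) i).differentiableWithinAt
  have hne : ∀ z ∈ ball (0 : ℂ) (5 / 4), It f N (Z₁ z) 0 ≠ 0 ∨ It f N (Z₁ z) 1 ≠ 0 := by
    intro z hz
    by_contra hcon
    push Not at hcon
    have h1 := hZ₁p z hz
    unfold pq at h1
    rw [hcon.1, hcon.2] at h1
    simp at h1
  have hfun : (fun z => un f N (Z₁ z)) = fun z => (1 / 2) * Real.log (Complex.normSq (It f N (Z₁ z) 0) +
      Complex.normSq (It f N (Z₁ z) 1)) / (d : ℝ) ^ N := rfl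
  have hsm : ContDiffOn ℝ ∞ (fun z => un f N (Z₁ z)) (ball 0 (5 / 4)) := by
    intro z hz
    have hmem : ball (0 : ℂ) (5 / 4) ∈ 𝓝 z := isOpen_ball.mem_nhds hz
    have c1 : ∀ i, ContDiffAt ℝ ∞ (fun z => It f N (Z₁ z) i) z := fun i =>
      (((hhol i).analyticAt hmem).contDiffAt (n := ∞)).restrict_scalars ℝ
    have hN2 : ContDiffAt ℝ ∞ (fun t => Complex.normSq (It f N (Z₁ t) 0) + Complex.normSq (It f N (Z₁ t) 1)) z :=
      (DMS_normSq.contDiffAt.comp z (c1 0)).add (DMS_normSq.contDiffAt.comp z (c1 1))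
    have hN : Complex.normSq (It f N (Z₁ z) 0) + Complex.normSq (It f N (Z₁ z) 1) ≠ 0 := (hZ₁p z hz).ne'
    rw [hfun]
    exact ((contDiffAt_const.mul (hN2.log hN)).div_const _).contDiffWithinAt
  have hlap : ∀ z ∈ ball (0 : ℂ) (5 / 4), 0 ≤ lap (fun z => un f N (Z₁ z)) z := by
    intro z hz
    rw [hfun, MAU_core (fun z => It f N (Z₁ z) 0) (fun z => It f N (Z₁ z) 1) z _ (ball 0 (5 / 4)) isOpen_ball hz
      (hhol 0) (hhol 1) (hne z hz)]
    have h1 : (0 : ℝ) < d := by linarith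
    have h2 := Complex.normSq_nonneg (It f N (Z₁ z) 0 * deriv (fun z => It f N (Z₁ z) 1) z - It f N (Z₁ z) 1 * deriv (fun z => It f N (Z₁ z) 0) z)
    positivity
  have hmc : 0 < mass f N Z₁ := lt_of_lt_of_le hc hcN
  obtain ⟨g, hg, hgv⟩ := hN1 (C * mass f N Z₁) (fun z => un f N (Z₁ z)) (by positivity) hsm hlap hsp
  set Z₂ : ℂ → E3 := fun z => Complex.exp (-g z) • Z₁ z with hZ₂
  have hZ₂D : Dsc (Us J) Z₂ := by
    refine ⟨?_, fun z hz => cone_smul (hZ₁c z (hb hz)) (Complex.exp_ne_zero _)⟩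
    exact (hg.neg.cexp).smul (hZ₁d.mono hb)
  have hmass : mass f N Z₂ = mass f N Z₁ := by
    unfold mass
    refine integral_congr_ae (Eventually.of_forall fun z => ?_)
    change eta z ^ 2 * tau f N Z₂ z = eta z ^ 2 * tau f N Z₁ z
    by_cases hz : z ∈ ball (0 : ℂ) 1
    · rw [hZ₂, VNE_tau f N Z₁ g z (fun i => (hhol i z (hb hz)).differentiableAt (isOpen_ball.mem_nhds (hb hz)))
        ((hg z hz).differentiableAt (isOpen_ball.mem_nhds hz))]
    · have h0 : eta z ^ 2 = 0 :=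
        image_eq_zero_of_notMem_tsupport (f := fun z : ℂ => eta z ^ 2) (fun h => hz (DMS_eta.2 h))
      rw [h0, zero_mul, zero_mul]
  have hun : ∀ z ∈ ball (0 : ℂ) 1, un f N (Z₂ z) = un f N (Z₁ z) - (g z).re := by
    intro z hz
    have h1 := VNE_un hd f N (Complex.exp (-g z)) (Complex.exp_ne_zero _) (Z₁ z) (hZ₁p z (hb hz))
    rw [Complex.norm_exp, Real.log_exp, Complex.neg_re] at h1
    change un f N (Complex.exp (-g z) • Z₁ z) = _
    rw [h1]
    ring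
  obtain ⟨hI1, -, hI3⟩ := hVIT d f (Us J) hd hG k N (by omega)
  obtain ⟨hD, -, -, hM, -, -⟩ := hI3 Z₂ hZ₂D
  refine ⟨(N - k, fun z => It f k (Z₂ z)), hD, ?_, ?_, ?_⟩
  · show M ≤ N - k
    omega
  · show (M : ℝ) ≤ mass f (N - k) (fun z => It f k (Z₂ z))
    rw [hM, hmass]
    exact hkM.trans (mul_le_mul_of_nonneg_left hcN hdk.le)
  · intro z hz
    show |un f (N - k) (It f k (Z₂ z))| ≤ C' * C * mass f (N - k) (fun z => It f k (Z₂ z))
    rw [hM, hmass, (hI1 (Z₂ z)).2, abs_mul, abs_of_pos hdk, hun z hz]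
    have h1 := hgv z hz
    calc (d : ℝ) ^ k * |un f N (Z₁ z) - (g z).re| ≤ (d : ℝ) ^ k * (C' * (C * mass f N Z₁)) :=
          mul_le_mul_of_nonneg_left h1 hdk.le
      _ = C' * C * ((d : ℝ) ^ k * mass f N Z₁) := by ring

end Pool.Agent.P2V
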